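import Pool.Agent.Q83.WG.L
import Pool.Agent.H295R3.Hoheisel

/-!
# Sums of powers of primes with generic coefficients
-/

set_option autoImplicit false

open MeasureTheory Filter Topology Set

namespace Pool.Agent.U384.WGM

open Pool.Agent.Q83.WG

/-- the primes are dense in short intervals (Hoheisel) -/
theorem primes_dense : Q83.WG.Dense {p : ℕ | p.Prime} := by
  obtain ⟨δ, η, hδ, hδ1, hη, X0, hX0, h⟩ := Pool.Agent.H295R3.D.hoheisel
  refine ⟨δ / 2, η / 2, max ((X0 : ℝ) + 1) (max 4 (2 ^ (2 / δ) : ℝ)), by positivity, by linarith,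
    by positivity, lt_of_lt_of_le (by norm_num) ((le_max_left _ _).trans (le_max_right _ _)), ?_⟩
  intro z y hz hy1 hy2
  have hz1 : (X0 : ℝ) + 1 ≤ z := (le_max_left _ _).trans hz
  have hz2 : (4 : ℝ) ≤ z := ((le_max_left _ _).trans (le_max_right _ _)).trans hz
  have hz3 : (2 : ℝ) ^ (2 / δ) ≤ z := ((le_max_right _ _).trans (le_max_right _ _)).trans hz
  have hz0 : 0 < z := by linarith
  have hzd : (2 : ℝ) ≤ z ^ (δ / 2) := by
    have h1 := Real.rpow_le_rpow (by positivity) hz3 (show 0 ≤ δ / 2 by positivity)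
    rw [← Real.rpow_mul (by norm_num), show 2 / δ * (δ / 2) = 1 by field_simp, Real.rpow_one] at h1
    exact h1
  have hsplit : z ^ (1 - δ / 2) = z ^ (1 - δ) * z ^ (δ / 2) := by
    rw [← Real.rpow_add hz0]; congr 1; ring
  have hone : 1 ≤ z ^ (1 - δ) := Real.one_le_rpow (by linarith) (by linarith)
  have hy3 : z ^ (1 - δ) + 1 ≤ y := by
    have : z ^ (1 - δ) * 2 ≤ z ^ (1 - δ) * z ^ (δ / 2) := by gcongr
    rw [hsplit] at hy1
    linarith
  set X : ℕ := ⌊z⌋₊ with hX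
  set Y : ℕ := ⌊y⌋₊ with hY
  have hXz : (X : ℝ) ≤ z := Nat.floor_le hz0.le
  have hXz' : z < X + 1 := Nat.lt_floor_add_one z
  have hYy : (Y : ℝ) ≤ y := Nat.floor_le (by linarith)
  have hYy' : y < Y + 1 := Nat.lt_floor_add_one y
  have hX0X : X0 ≤ X := by
    have : (X0 : ℝ) < X + 1 := by linarith
    have h2 : X0 < X + 1 := by exact_mod_cast this
    omega
  have hX3 : (3 : ℝ) ≤ X := by
    have : 4 ≤ X := Nat.le_floor (by exact_mod_cast hz2)
    have : (4 : ℝ) ≤ X := by exact_mod_cast this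
    linarith
  have c1 : (X : ℝ) ^ (1 - δ) ≤ Y := by
    have : (X : ℝ) ^ (1 - δ) ≤ z ^ (1 - δ) := Real.rpow_le_rpow (by positivity) hXz (by linarith)
    linarith
  have c2 : Y ≤ X := by
    have : (Y : ℝ) < X + 1 := by linarith
    have h2 : Y < X + 1 := by exact_mod_cast this
    omega
  have key := h X Y hX0X c1 c2
  have hlX : 0 < Real.log X := Real.log_pos (by linarith)
  have hlz : Real.log X ≤ Real.log z := Real.log_le_log (by linarith) hXz
  have hsub : ((Finset.Ioc X (X + Y)).filter Nat.Prime) ⊆ J {p : ℕ | p.Prime} z (z + y) := by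
    intro p hp
    rw [Finset.mem_filter, Finset.mem_Ioc] at hp
    rw [mem_J hz0.le (by linarith)]
    obtain ⟨⟨hp1, hp2⟩, hp3⟩ := hp
    have h1 : ((X : ℝ) + 1) ≤ p := by exact_mod_cast hp1
    have h2 : (p : ℝ) ≤ X + Y := by exact_mod_cast hp2
    exact ⟨by linarith, by linarith, hp3⟩
  have hcard : (((Finset.Ioc X (X + Y)).filter Nat.Prime).card : ℝ) ≤
      ((J {p : ℕ | p.Prime} z (z + y)).card : ℝ) := by
    exact_mod_cast Finset.card_le_card hsub
  refine le_trans ?_ (key.trans hcard)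
  have hY2 : y / 2 ≤ Y := by linarith
  calc η / 2 * y / Real.log z = η * (y / 2) / Real.log z := by ring
    _ ≤ η * Y / Real.log z :=
        div_le_div_of_nonneg_right (mul_le_mul_of_nonneg_left hY2 hη.le) (hlX.le.trans hlz)
    _ ≤ η * Y / Real.log X := div_le_div_of_nonneg_left (by positivity) hlX hlz

/-- the integer part -/
theorem floor_of (s : ℕ) (P : Fin s → Set ℕ) (hP : ∀ i, Q83.WG.Dense (P i)) (κ : Fin s → ℝ)
    (hκ : ∀ i, 1 ≤ κ i) (hsum : 2 < ∑ i, (κ i)⁻¹) :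
    ∀ᵐ α : Fin s → ℝ, (∀ i, 0 < α i) → ∀ᶠ n : ℕ in atTop, ∃ x : Fin s → ℕ,
      (∀ i, x i ∈ P i) ∧ ⌊∑ i, α i * (x i : ℝ) ^ κ i⌋ = (n : ℤ) := by
  filter_upwards [coef_main P hP κ hκ hsum] with α hα hpos
  set q : ℝ := ∑ i, (κ i)⁻¹ with hq
  set γ : ℝ := (q / 2 - 1) / 2 with hγ
  have hγ0 : 0 < γ := by rw [hγ]; linarith
  have h1 := hα hpos γ hγ0.le (by rw [hγ]; linarith) (q / 2 - 1) (by linarith)
  have hlim : Tendsto (fun N : ℝ => N ^ γ) atTop atTop := tendsto_rpow_atTop hγ0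
  have h2 := h1.and ((hlim.eventually_ge_atTop 4).and (eventually_ge_atTop (1 : ℝ)))
  have h3 : Tendsto (fun n : ℕ => (n : ℝ) + 1 / 2) atTop atTop :=
    tendsto_atTop_add_const_right _ _ tendsto_natCast_atTop_atTop
  filter_upwards [h3.eventually h2] with n hn
  obtain ⟨⟨T, hT, hT2⟩, hn4, hn1⟩ := hn
  have hN0 : (0 : ℝ) < (n : ℝ) + 1 / 2 := by positivity
  have hTpos : 0 < (T.card : ℝ) := lt_of_lt_of_le (by positivity) hT
  have hTne : T.Nonempty := by
    rw [← Finset.card_pos]; exact_mod_cast hTpos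
  obtain ⟨x, hx⟩ := hTne
  obtain ⟨hx1, hx2⟩ := hT2 x hx
  refine ⟨x, fun i => (hx1 i).1, ?_⟩
  have hr : ((n : ℝ) + 1 / 2) ^ (-γ) ≤ 1 / 4 := by
    rw [Real.rpow_neg hN0.le, ← one_div]
    exact one_div_le_one_div_of_le (by norm_num) hn4
  rw [Int.floor_eq_iff]
  rw [abs_le] at hx2
  push_cast
  constructor <;> linarith [hx2.1, hx2.2]

end Pool.Agent.U384.WGM
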